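import Mathlib

set_option autoImplicit false

namespace Pool.Agent.Results.MP_72f8f6_ag.Idealization

open MvPolynomial

/-- The map from R[y_1..y_m] to R[t] sending y_j to f_j t; its image is the Rees algebra. -/
noncomputable def reesMap {R : Type} [CommRing R] {m : ℕ} (f : Fin m → R) :
    MvPolynomial (Fin m) R →ₐ[R] Polynomial R :=
  aeval fun j => Polynomial.C (f j) * Polynomial.X

/-- The ideal L generated by the linear forms coming from the syzygies of f. -/
noncomputable def linIdeal {R : Type} [CommRing R] {m : ℕ} (f : Fin m → R) :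
    Ideal (MvPolynomial (Fin m) R) :=
  Ideal.span {g | ∃ a : Fin m → R, ∑ i, a i * f i = 0 ∧ g = ∑ i, C (a i) * X i}

/-- The conductor: the r in R with r J contained in L, J the kernel of reesMap. -/
noncomputable def conductor {R : Type} [CommRing R] {m : ℕ} (f : Fin m → R) : Ideal R where
  carrier := {r | ∀ g : MvPolynomial (Fin m) R, reesMap f g = 0 → C r * g ∈ linIdeal f}
  add_mem' := by
    intro a b ha hb g hg
    rw [map_add, add_mul]
    exact add_mem (ha g hg) (hb g hg)
  zero_mem' := by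
    intro g _
    simp
  smul_mem' := by
    intro c a ha g hg
    rw [smul_eq_mul, map_mul, mul_assoc]
    exact Ideal.mul_mem_left _ _ (ha g hg)

abbrev BB : Type := DualNumber ℤ
abbrev TT : Type := DualNumber BB

def SS : Subring TT where
  carrier := {z | Even z.fst.snd}
  mul_mem' := by
    intro a b ha hb
    simp only [Set.mem_setOf_eq, TrivSqZeroExt.fst_mul, DualNumber.snd_mul] at *
    exact (hb.mul_left _).add (ha.mul_right _)
  one_mem' := by simp
  add_mem' := by
    intro a b ha hb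
    simp only [Set.mem_setOf_eq, TrivSqZeroExt.fst_add, TrivSqZeroExt.snd_add] at *
    exact ha.add hb
  zero_mem' := by simp
  neg_mem' := by
    intro a ha
    simpa using ha

abbrev RR : Type := SS

lemma finTT : Module.Finite ℤ TT := inferInstanceAs (Module.Finite ℤ ((ℤ × ℤ) × (ℤ × ℤ)))

lemma noeth : IsNoetherianRing RR := by
  have := finTT
  have : Module.Finite ℤ RR :=
    Module.Finite.of_injective (SS.subtype.toAddMonoidHom.toIntLinearMap) Subtype.val_injective
  exact IsNoetherianRing.of_finite ℤ RR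

def mk4 (a b c d : ℤ) : RR := ⟨((a, 2 * b), (c, d)), by
  show Even (2 * b)
  simp⟩

lemma ext4 {u v : RR} (h1 : u.1.fst.fst = v.1.fst.fst) (h2 : u.1.fst.snd = v.1.fst.snd)
    (h3 : u.1.snd.fst = v.1.snd.fst) (h4 : u.1.snd.snd = v.1.snd.snd) : u = v := by
  apply Subtype.ext
  ext <;> assumption

@[simp] lemma mk4_1 (a b c d : ℤ) : (mk4 a b c d).1.fst.fst = a := rfl
@[simp] lemma mk4_2 (a b c d : ℤ) : (mk4 a b c d).1.fst.snd = 2 * b := rfl
@[simp] lemma mk4_3 (a b c d : ℤ) : (mk4 a b c d).1.snd.fst = c := rfl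
@[simp] lemma mk4_4 (a b c d : ℤ) : (mk4 a b c d).1.snd.snd = d := rfl

def ss : RR := mk4 0 1 0 0
def xx : RR := mk4 0 0 1 0
def yy : RR := mk4 0 0 0 1
def two : RR := mk4 2 0 0 0
def ff : Fin 2 → RR := ![xx, yy]

def psi : RR →+* BB := (TrivSqZeroExt.fstHom ℤ BB BB).toRingHom.comp SS.subtype

lemma psi_apply (z : RR) : psi z = z.1.fst := rfl

lemma mem_I (z : RR) : z ∈ Ideal.span (Set.range ff) ↔ z.1.fst = 0 := by
  constructor
  · intro h
    have : Ideal.span (Set.range ff) ≤ RingHom.ker psi := by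
      rw [Ideal.span_le]
      rintro _ ⟨i, rfl⟩
      fin_cases i <;> rfl
    exact this h
  · intro h
    have h1 : z.1.fst.fst = 0 := by rw [h]; rfl
    have h2 : z.1.fst.snd = 0 := by rw [h]; rfl
    have : z = mk4 z.1.snd.fst 0 0 0 * ff 0 + mk4 z.1.snd.snd 0 0 0 * ff 1 := by
      apply ext4 <;> simp [ff, xx, yy, h1, h2]
    rw [this]
    exact add_mem (Ideal.mul_mem_left _ _ (Ideal.subset_span ⟨0, rfl⟩))
      (Ideal.mul_mem_left _ _ (Ideal.subset_span ⟨1, rfl⟩))

lemma two_reg (z : RR) (h : z * two = 0) : z = 0 := by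
  have h1 := congrArg (fun w : RR => w.1.fst.fst) h
  have h2 := congrArg (fun w : RR => w.1.fst.snd) h
  have h3 := congrArg (fun w : RR => w.1.snd.fst) h
  have h4 := congrArg (fun w : RR => w.1.snd.snd) h
  simp [two] at h1 h2 h3 h4
  apply ext4 <;> simp [h1, h2, h3, h4]

lemma I_sq : Ideal.span (Set.range ff) ^ 2 = ⊥ := by
  rw [pow_two, eq_bot_iff, Ideal.mul_le]
  intro a ha b hb
  rw [mem_I] at ha hb
  rw [Ideal.mem_bot]
  apply Subtype.ext
  ext1 <;> simp [ha, hb]

lemma colon_eq (j : ℕ) :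
    (Ideal.span (Set.range ff) ^ j).colon {two} = Ideal.span (Set.range ff) ^ j := by
  ext z
  rw [Submodule.mem_colon_singleton, smul_eq_mul]
  refine ⟨fun h => ?_, fun h => Ideal.mul_mem_right _ _ h⟩
  match j with
  | 0 => simp
  | 1 =>
    rw [pow_one, mem_I] at *
    have h1 := congrArg TrivSqZeroExt.fst h
    have h2 := congrArg TrivSqZeroExt.snd h
    simp [two] at h1 h2
    ext <;> simp [h1, h2]
  | (n + 2) =>
    rw [pow_add, I_sq, Ideal.mul_bot, Ideal.mem_bot] at *
    exact two_reg z h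

noncomputable def Psi : MvPolynomial (Fin 2) RR →+* BB := eval₂Hom psi ![1, DualNumber.eps]

lemma Psi_lin (g : MvPolynomial (Fin 2) RR) (hg : g ∈ linIdeal ff) : Psi g = 0 := by
  have : linIdeal ff ≤ RingHom.ker Psi := by
    rw [linIdeal, Ideal.span_le]
    rintro _ ⟨a, ha, rfl⟩
    have h3 := congrArg (fun w : RR => w.1.snd.fst) ha
    have h4 := congrArg (fun w : RR => w.1.snd.snd) ha
    simp [ff, xx, yy, Fin.sum_univ_two] at h3 h4
    simp only [SetLike.mem_coe, RingHom.mem_ker, Psi, Fin.sum_univ_two, map_add, map_mul,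
      eval₂Hom_C, eval₂Hom_X', psi_apply]
    ext <;> simp [h3, h4]
  exact this hg

lemma not_mem : ss ∉ conductor ff ⊔ Ideal.span {two} := by
  intro h
  obtain ⟨c, hc, w, hw, e⟩ := Submodule.mem_sup.1 h
  obtain ⟨ρ, rfl⟩ := Ideal.mem_span_singleton'.1 hw
  have hxx : xx * xx = 0 := by apply ext4 <;> simp [xx]
  have h1 := Psi_lin _ (hc (X 0 ^ 2) (by
    simp only [reesMap, map_pow, aeval_X, ff, Matrix.cons_val_zero]
    rw [mul_pow, ← map_pow, pow_two, hxx]
    simp))
  simp only [Psi, map_mul, eval₂Hom_C, map_pow, eval₂Hom_X', psi_apply] at h1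
  simp at h1
  have e2 := congrArg (fun w : RR => w.1.fst.snd) e
  simp [ss, two, h1] at e2
  obtain ⟨k, hk⟩ : Even ρ.1.fst.snd := ρ.2
  omega

def gg : Fin 3 → RR := Fin.cons two ff

abbrev PP : Type := MvPolynomial (Fin 3) RR

noncomputable def NN : Ideal PP := Ideal.span {X 1 * X 1, X 1 * X 2, X 2 * X 2}

noncomputable def em : Polynomial RR →ₐ[RR] PP := Polynomial.aeval (X 0)

lemma decomp (g : PP) : ∃ (p0 p1 p2 : Polynomial RR) (n : PP), n ∈ NN ∧
    g = em p0 + em p1 * X 1 + em p2 * X 2 + n := by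
  have n11 : (X 1 * X 1 : PP) ∈ NN := Ideal.subset_span (by simp)
  have n12 : (X 1 * X 2 : PP) ∈ NN := Ideal.subset_span (by simp)
  have n22 : (X 2 * X 2 : PP) ∈ NN := Ideal.subset_span (by simp)
  induction g using MvPolynomial.induction_on with
  | C a => exact ⟨Polynomial.C a, 0, 0, 0, zero_mem _, by simp [em]⟩
  | add p q hp hq =>
    obtain ⟨a0, a1, a2, n, hn, rfl⟩ := hp
    obtain ⟨b0, b1, b2, m, hm, rfl⟩ := hq
    exact ⟨a0 + b0, a1 + b1, a2 + b2, n + m, add_mem hn hm, by simp only [map_add]; ring⟩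
  | mul_X p i hp =>
    obtain ⟨a0, a1, a2, n, hn, rfl⟩ := hp
    fin_cases i
    · refine ⟨a0 * Polynomial.X, a1 * Polynomial.X, a2 * Polynomial.X, n * X 0,
        Ideal.mul_mem_right _ _ hn, ?_⟩
      simp [em]; ring
    · refine ⟨0, a0, 0, em a1 * (X 1 * X 1) + em a2 * (X 1 * X 2) + n * X 1,
        add_mem (add_mem (Ideal.mul_mem_left _ _ n11) (Ideal.mul_mem_left _ _ n12))
          (Ideal.mul_mem_right _ _ hn), ?_⟩
      simp; ring
    · refine ⟨0, 0, a0, em a1 * (X 1 * X 2) + em a2 * (X 2 * X 2) + n * X 2,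
        add_mem (add_mem (Ideal.mul_mem_left _ _ n12) (Ideal.mul_mem_left _ _ n22))
          (Ideal.mul_mem_right _ _ hn), ?_⟩
      simp; ring

lemma lin_mem (a b c : RR) (h : a * two + b * xx + c * yy = 0) :
    (C a * X 0 + C b * X 1 + C c * X 2 : PP) ∈ linIdeal gg := by
  apply Ideal.subset_span
  refine ⟨![a, b, c], ?_, ?_⟩
  · simpa [Fin.sum_univ_three, gg, ff] using h
  · simp [Fin.sum_univ_three]

lemma N_ker (n : PP) (hn : n ∈ NN) : reesMap gg n = 0 ∧ C ss * n ∈ linIdeal gg := by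
  have hxx : xx * xx = 0 := by apply ext4 <;> simp [xx]
  have hxy : xx * yy = 0 := by apply ext4 <;> simp [xx, yy]
  have hyy : yy * yy = 0 := by apply ext4 <;> simp [yy]
  have l1 := lin_mem (-yy) ss 0 (by apply ext4 <;> simp [xx, yy, ss, two])
  have l2 := lin_mem 0 0 ss (by apply ext4 <;> simp [xx, yy, ss, two])
  have l3 := lin_mem 0 yy 0 (by apply ext4 <;> simp [xx, yy, two])
  simp only [map_zero, zero_mul, add_zero, zero_add, map_neg] at l1 l2 l3
  constructor
  · have : NN ≤ RingHom.ker (reesMap gg) := by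
      rw [NN, Ideal.span_le]
      have e1 : gg 1 = xx := rfl
      have e2 : gg 2 = yy := rfl
      rintro _ (rfl | rfl | rfl)
      · simp only [SetLike.mem_coe, RingHom.mem_ker, reesMap, map_mul, aeval_X, e1]
        rw [mul_mul_mul_comm, ← map_mul, hxx]; simp
      · simp only [SetLike.mem_coe, RingHom.mem_ker, reesMap, map_mul, aeval_X, e1, e2]
        rw [mul_mul_mul_comm, ← map_mul, hxy]; simp
      · simp only [SetLike.mem_coe, RingHom.mem_ker, reesMap, map_mul, aeval_X, e2]
        rw [mul_mul_mul_comm, ← map_mul, hyy]; simp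
    exact this hn
  · have : NN ≤ (linIdeal gg).colon {C ss} := by
      rw [NN, Ideal.span_le]
      rintro _ (rfl | rfl | rfl)
      · rw [SetLike.mem_coe, Submodule.mem_colon_singleton, smul_eq_mul]
        have : (X 1 * X 1 * C ss : PP) = X 1 * (-C yy * X 0 + C ss * X 1) + X 0 * (C yy * X 1) := by
          ring
        rw [this]
        exact add_mem (Ideal.mul_mem_left _ _ l1) (Ideal.mul_mem_left _ _ l3)
      · rw [SetLike.mem_coe, Submodule.mem_colon_singleton, smul_eq_mul]
        have : (X 1 * X 2 * C ss : PP) = X 1 * (C ss * X 2) := by ring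
        rw [this]
        exact Ideal.mul_mem_left _ _ l2
      · rw [SetLike.mem_coe, Submodule.mem_colon_singleton, smul_eq_mul]
        have : (X 2 * X 2 * C ss : PP) = X 2 * (C ss * X 2) := by ring
        rw [this]
        exact Ideal.mul_mem_left _ _ l2
    have h := this hn
    rw [Submodule.mem_colon_singleton, smul_eq_mul, mul_comm] at h
    exact h

lemma pow_reg (j : ℕ) (z : RR) (h : z * two ^ j = 0) : z = 0 := by
  induction j with
  | zero => simpa using h
  | succ k ih => exact ih (two_reg _ (by rw [mul_assoc, ← pow_succ]; exact h))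

lemma rees_em (p : Polynomial RR) :
    reesMap gg (em p) = p.comp (Polynomial.C two * Polynomial.X) := by
  have e0 : gg 0 = two := rfl
  rw [em, ← Polynomial.aeval_algHom_apply]
  simp only [reesMap, aeval_X, e0]
  rfl

lemma s_mem : ss ∈ conductor gg := by
  intro g hg
  obtain ⟨p0, p1, p2, n, hn, rfl⟩ := decomp g
  obtain ⟨hn1, hn2⟩ := N_ker n hn
  rw [mul_add]
  refine add_mem (Ideal.mul_mem_left _ _ ?_) hn2
  have e1 : gg 1 = xx := rfl
  have e2 : gg 2 = yy := rfl
  simp only [map_add, map_mul, hn1, add_zero, rees_em] at hg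
  simp only [reesMap, aeval_X, e1, e2] at hg
  have c0 : p0.coeff 0 = 0 := by
    have := congrArg (fun q => Polynomial.coeff q 0) hg
    simpa [← mul_assoc, Polynomial.comp_C_mul_X_coeff] using this
  have cj : ∀ j, p0.coeff (j + 1) * two + p1.coeff j * xx + p2.coeff j * yy = 0 := by
    intro j
    have := congrArg (fun q => Polynomial.coeff q (j + 1)) hg
    simp only [← mul_assoc, Polynomial.coeff_add, Polynomial.coeff_mul_X, Polynomial.coeff_mul_C,
      Polynomial.comp_C_mul_X_coeff, Polynomial.coeff_zero] at this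
    apply pow_reg j
    linear_combination this
  set N := p0.natDegree + p1.natDegree + p2.natDegree + 1 with hN
  have r0 : em p0 = ∑ j ∈ Finset.range (N + 1), p0.coeff j • (X 0 : PP) ^ j :=
    Polynomial.aeval_eq_sum_range' (by omega) _
  have r1 : em p1 = ∑ j ∈ Finset.range N, p1.coeff j • (X 0 : PP) ^ j :=
    Polynomial.aeval_eq_sum_range' (by omega) _
  have r2 : em p2 = ∑ j ∈ Finset.range N, p2.coeff j • (X 0 : PP) ^ j :=
    Polynomial.aeval_eq_sum_range' (by omega) _
  rw [r0, r1, r2, Finset.sum_range_succ', c0, zero_smul, add_zero, Finset.sum_mul, Finset.sum_mul,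
    ← Finset.sum_add_distrib, ← Finset.sum_add_distrib]
  apply Ideal.sum_mem
  intro j _
  have := Ideal.mul_mem_left _ ((X 0 : PP) ^ j) (lin_mem _ _ _ (cj j))
  have e : (X 0 : PP) ^ j * (C (p0.coeff (j + 1)) * X 0 + C (p1.coeff j) * X 1
      + C (p2.coeff j) * X 2) = p0.coeff (j + 1) • (X 0 : PP) ^ (j + 1)
      + p1.coeff j • (X 0 : PP) ^ j * X 1 + p2.coeff j • (X 0 : PP) ^ j * X 2 := by
    simp only [smul_eq_C_mul]; ring
  rw [← e]
  exact this

theorem result :
    ∃ (R : Type) (_ : CommRing R) (_ : IsNoetherianRing R) (m : ℕ) (f : Fin m → R) (g : R),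
      (∀ j : ℕ, (Ideal.span (Set.range f) ^ j).colon {g} = Ideal.span (Set.range f) ^ j) ∧
      ∃ r ∈ conductor (Fin.cons g f : Fin (m + 1) → R), r ∉ conductor f ⊔ Ideal.span {g} :=
  ⟨RR, inferInstance, noeth, 2, ff, two, colon_eq, ss, s_mem, not_mem⟩

end Pool.Agent.Results.MP_72f8f6_ag.Idealization
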